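import Mathlib
import Pool.Agent.FB.Fin
import Pool.Agent.FB.TOP
import Pool.Agent.FB.U4.U4
import Pool.Agent.SPT.Theta

/-!
# FB/Y1: closed 4-braids with a double block: many different lengths

For every `k` there is `N` such that for `n ≥ N`: if all syllables of `β` have length at least `n`, some block
has `a, c ≠ 0`, and at most `k` different lengths are larger than `k n`, then `f ≠ 1`.

PROOF.  There is an angle `θ` between `π / (2 k n)` and `π / (k n)` for which all weights `exp (- i θ a)` are at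
distance at least `η (k)` from `1`; then `U4` applies.  The condition of `U4` on the words `X Y` is void, because of
the double block.
-/

set_option autoImplicit false

namespace Pool.Agent.FB.Y1

open LaurentPolynomial Pool.RU

/-- the weights of the syllables are far from `1` -/
def Far (η θ : ℝ) (β : List (ℤ × ℤ × ℤ)) : Prop :=
  ∀ t ∈ β, η ≤ ‖wt θ t.2.2 - 1‖ ∧ (t.1 = 0 ∨ η ≤ ‖wt θ t.1 - 1‖) ∧
    (t.2.1 = 0 ∨ η ≤ ‖wt θ t.2.1 - 1‖) ∧ ¬ (t.1 = 0 ∧ t.2.1 = 0)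

theorem ne_of_far (η θ : ℝ) (hη : 0 < η) (a : ℤ) (h : η ≤ ‖wt θ a - 1‖) : wt θ a ≠ 1 := by
  intro h0
  rw [h0, sub_self, norm_zero] at h
  linarith

theorem farList (η θ : ℝ) (hη : 0 < η) (β : List (ℤ × ℤ × ℤ)) (h : Far η θ β)
    (hd : ∃ t ∈ β, t.1 ≠ 0 ∧ t.2.1 ≠ 0) : FarList η (β.map (weights θ)) := by
  have hA1 : ∀ t ∈ β, wt θ t.1 = 1 → t.1 = 0 := by
    intro t ht h0
    rcases (h t ht).2.1 with h5 | h5
    · exact h5
    · exact absurd h0 (ne_of_far η θ hη _ h5)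
  have hC1 : ∀ t ∈ β, wt θ t.2.1 = 1 → t.2.1 = 0 := by
    intro t ht h0
    rcases (h t ht).2.2.1 with h5 | h5
    · exact h5
    · exact absurd h0 (ne_of_far η θ hη _ h5)
  obtain ⟨d, hd1, hd2, hd3⟩ := hd
  have hdm : weights θ d ∈ β.map (weights θ) := List.mem_map.2 ⟨d, hd1, rfl⟩
  refine ⟨?_, ?_, ?_, ?_⟩
  · intro w hw
    obtain ⟨t, ht, rfl⟩ := List.mem_map.1 hw
    rw [weights_eq]
    obtain ⟨h1, h2, h3, h4⟩ := h t ht
    refine ⟨wt_norm _ _, wt_norm _ _, wt_norm _ _, ?_, ?_, ?_, h1⟩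
    · rcases h2 with h5 | h5
      · left
        show wt θ t.1 = 1
        rw [h5, wt_zero]
      · exact Or.inr h5
    · rcases h3 with h5 | h5
      · left
        show wt θ t.2.1 = 1
        rw [h5, wt_zero]
      · exact Or.inr h5
    · rintro ⟨h5, h6⟩
      exact h4 ⟨hA1 t ht h5, hC1 t ht h6⟩
  · rintro ⟨-, h5⟩
    exact hd3 (hC1 d hd1 (h5 _ hdm))
  · rintro ⟨-, h5⟩
    exact hd2 (hA1 d hd1 (h5 _ hdm))
  · intro s t P R hrot hP hR
    exfalso
    have h6 : weights θ d ∈ s :: P ++ t :: R := hrot.mem_iff.1 hdm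
    rcases List.mem_append.1 h6 with h7 | h7
    · exact hd3 (hC1 d hd1 (hP.2 _ h7))
    · exact hd2 (hA1 d hd1 (hR.2 _ h7))

theorem conclude (η : ℝ) (hη : 0 < η) :
    ∃ t : ℝ, 0 < t ∧ ∀ (β : List (ℤ × ℤ × ℤ)) (θ : ℝ), (∃ u ∈ β, u.1 ≠ 0 ∧ u.2.1 ≠ 0) → 0 < θ → θ ≤ t →
      Far η θ β → ∀ o, (closure β).IsOrientation o → (closure β).normalized o ≠ 1 := by
  obtain ⟨Q₀, hQ₀, hU'⟩ := U4.thm_U4 η 1 hη
  refine ⟨min (1 / 2) (Real.sqrt Q₀ / 2), lt_min (by norm_num) (by positivity), ?_⟩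
  intro β θ hd hθ hθt hfar o ho hone
  have hθ1 : θ < 1 := by
    have h1 := hθt.trans (min_le_left _ _)
    linarith
  have hs0 : 0 < 2 * Real.sin (θ / 2) := by
    have h1 := Real.sin_pos_of_pos_of_lt_pi (x := θ / 2) (by linarith) (by linarith [Real.pi_gt_three])
    linarith
  have hs1 : 2 * Real.sin (θ / 2) ≤ θ := by
    have h1 := Real.sin_le (x := θ / 2) (by linarith)
    linarith
  have hQ : (2 * Real.sin (θ / 2)) ^ 2 < Q₀ := by
    have h1 : 2 * Real.sin (θ / 2) < Real.sqrt Q₀ := by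
      have h2 := hθt.trans (min_le_right _ _)
      have h3 := Real.sqrt_pos.2 hQ₀
      linarith
    have h2 := Real.sq_sqrt hQ₀.le
    nlinarith [Real.sqrt_pos.2 hQ₀]
  have hβ0 : β ≠ [] := by
    obtain ⟨t, ht, _⟩ := hd
    exact List.ne_nil_of_mem ht
  have h1 := hU' _ (by positivity) hQ (β.map (weights θ)) (by simpa using hβ0)
    (farList η θ hη β hfar hd)
  rw [← thm_Top β θ hθ hθ1 o ho, hone] at h1
  have h2 : valueAt θ (1 : ℤ[T;T⁻¹]) = 1 := map_one _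
  rw [h2, norm_one] at h1
  linarith

/-- the exponents which occur -/
def Occ (β : List (ℤ × ℤ × ℤ)) (a : ℤ) : Prop := a ≠ 0 ∧ ∃ t ∈ β, a = t.1 ∨ a = t.2.1 ∨ a = t.2.2

theorem wt_abs (θ : ℝ) (a : ℤ) :
    ‖wt θ a - 1‖ = ‖Complex.exp ((((|a| : ℤ) * θ : ℝ) : ℂ) * Complex.I) - 1‖ := by
  unfold wt
  rw [mul_comm (((-θ * a : ℝ) : ℂ)) Complex.I, Complex.norm_exp_I_mul_ofReal_sub_one,
    mul_comm ((((|a| : ℤ) * θ : ℝ) : ℂ)) Complex.I, Complex.norm_exp_I_mul_ofReal_sub_one]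
  rcases abs_cases a with ⟨h, _⟩ | ⟨h, _⟩
  · rw [h]
    have h7 : -θ * (a : ℝ) / 2 = -(((a : ℤ) : ℝ) * θ / 2) := by ring
    rw [h7, Real.sin_neg, mul_neg, norm_neg]
  · rw [h]
    have h7 : -θ * (a : ℝ) / 2 = ((((-a : ℤ)) : ℝ) * θ / 2) := by
      push_cast
      ring
    rw [h7]

/-- **many lengths** -/
theorem many (k : ℕ) (hk : 0 < k) : ∃ N : ℕ, 0 < N ∧ ∀ n : ℕ, N ≤ n → ∀ β : List (ℤ × ℤ × ℤ),
    (∀ t ∈ β, (n : ℤ) ≤ |t.2.2| ∧ (t.1 = 0 ∨ (n : ℤ) ≤ |t.1|) ∧ (t.2.1 = 0 ∨ (n : ℤ) ≤ |t.2.1|) ∧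
      ¬ (t.1 = 0 ∧ t.2.1 = 0)) → (∃ t ∈ β, t.1 ≠ 0 ∧ t.2.1 ≠ 0) →
    ∀ S : Finset ℕ, (∀ a : ℤ, Occ β a → k * n < a.natAbs → a.natAbs ∈ S) → S.card ≤ k →
    ∀ o, (closure β).IsOrientation o → (closure β).normalized o ≠ 1 := by
  have hkR : (1 : ℝ) ≤ k := by exact_mod_cast hk
  obtain ⟨η, hη, hTh⟩ := SPT.thm_ThetaGen k (Real.pi / 2) (by positivity) (by linarith [Real.pi_pos])
  have hη' : 0 < 2 * Real.sin (Real.pi / (4 * k)) := by
    have h1 := Real.sin_pos_of_pos_of_lt_pi (x := Real.pi / (4 * k)) (by positivity) (by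
      rw [div_lt_iff₀ (by positivity)]
      nlinarith [Real.pi_pos])
    linarith
  obtain ⟨t, ht, hc⟩ := conclude (min η (2 * Real.sin (Real.pi / (4 * k)))) (lt_min hη hη')
  obtain ⟨N, hN⟩ := exists_nat_ge (Real.pi / k / t)
  refine ⟨N + 1, by omega, fun n hn β hβ hd S hS hcard o ho => ?_⟩
  have hn0 : (0 : ℝ) < n := by
    have h1 : 0 < n := by omega
    exact_mod_cast h1
  have hkn : (0 : ℝ) < k * n := by positivity
  have hl : 0 < Real.pi / (2 * (k * n)) := by positivity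
  obtain ⟨θ, hθ1, hθ2, hθ⟩ := hTh ((S.filter fun a => k * n < a).image fun a : ℕ => (a : ℤ))
    (Finset.card_image_le.trans ((Finset.card_le_card (Finset.filter_subset _ _)).trans hcard))
    (Real.pi / (2 * (k * n))) (Real.pi / (2 * (k * n))) (fun a ha => by
      obtain ⟨b, hb, rfl⟩ := Finset.mem_image.1 ha
      rw [Finset.mem_filter] at hb
      have h1 : ((k : ℝ) * n) ≤ |(((b : ℕ) : ℤ) : ℝ)| := by
        have h2 : k * n ≤ b := hb.2.le
        have h3 : ((k * n : ℕ) : ℝ) ≤ (b : ℝ) := by exact_mod_cast h2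
        rw [Int.cast_natCast, abs_of_nonneg (by positivity)]
        push_cast at h3
        exact h3
      calc Real.pi / 2 = Real.pi / (2 * (k * n)) * (k * n) := by
            field_simp
        _ ≤ Real.pi / (2 * (k * n)) * |(((b : ℕ) : ℤ) : ℝ)| := mul_le_mul_of_nonneg_left h1 hl.le) hl
  have hθ0 : 0 < θ := by linarith
  have hθ3 : θ ≤ Real.pi / (k * n) := by
    have h1 : Real.pi / (2 * (k * n)) + Real.pi / (2 * (k * n)) = Real.pi / (k * n) := by
      field_simp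
      ring
    linarith
  have hθt : θ ≤ t := by
    refine hθ3.trans ?_
    have h1 : (N : ℝ) ≤ n := by
      have h2 : N ≤ n := by omega
      exact_mod_cast h2
    have h2 := hN.trans h1
    rw [div_le_iff₀ ht, div_le_iff₀ (by positivity)] at h2
    rw [div_le_iff₀ hkn]
    linarith
  have hfar : ∀ a : ℤ, Occ β a → (n : ℤ) ≤ |a| →
      min η (2 * Real.sin (Real.pi / (4 * k))) ≤ ‖wt θ a - 1‖ := by
    intro a ha hna
    by_cases hbig : k * n < a.natAbs
    · refine (min_le_left _ _).trans ?_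
      have h1 := hθ ((a.natAbs : ℕ) : ℤ) (Finset.mem_image.2 ⟨a.natAbs, Finset.mem_filter.2
        ⟨hS a ha hbig, hbig⟩, rfl⟩)
      rw [wt_abs]
      rw [Int.natCast_natAbs] at h1
      exact h1
    · refine (min_le_right _ _).trans ?_
      have hlow : (n : ℝ) ≤ |(a : ℝ)| := by exact_mod_cast hna
      have hup : |(a : ℝ)| ≤ k * n := by
        have h1 : a.natAbs ≤ k * n := not_lt.1 hbig
        have h2 : |a| ≤ ((k * n : ℕ) : ℤ) := by
          rw [Int.abs_eq_natAbs]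
          exact_mod_cast h1
        exact_mod_cast h2
      apply wt_far
      · have h8 : Real.pi / (4 * k) = Real.pi / (2 * (k * n)) * n / 2 := by
          field_simp
          ring
        rw [h8]
        have h9 : Real.pi / (2 * (k * n)) * n ≤ θ * |(a : ℝ)| :=
          mul_le_mul hθ1 hlow hn0.le hθ0.le
        linarith
      · have h8 : θ * |(a : ℝ)| ≤ Real.pi / (k * n) * (k * n) :=
          mul_le_mul hθ3 hup (abs_nonneg _) (by positivity)
        have h9 : Real.pi / (k * n) * (k * n) = Real.pi := by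
          field_simp
        linarith
      · positivity
      · exact hθ0
  refine hc β θ hd hθ0 hθt (fun u hu => ?_) o ho
  obtain ⟨h1, h2, h3, h4⟩ := hβ u hu
  have hn1 : (1 : ℤ) ≤ n := by
    have h5 : 1 ≤ n := by omega
    exact_mod_cast h5
  refine ⟨hfar _ ⟨fun h5 => ?_, u, hu, Or.inr (Or.inr rfl)⟩ h1, ?_, ?_, h4⟩
  · rw [h5, abs_zero] at h1
    omega
  · rcases h2 with h5 | h5
    · exact Or.inl h5
    · refine Or.inr (hfar _ ⟨fun h6 => ?_, u, hu, Or.inl rfl⟩ h5)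
      rw [h6, abs_zero] at h5
      omega
  · rcases h3 with h5 | h5
    · exact Or.inl h5
    · refine Or.inr (hfar _ ⟨fun h6 => ?_, u, hu, Or.inr (Or.inl rfl)⟩ h5)
      rw [h6, abs_zero] at h5
      omega

end Pool.Agent.FB.Y1
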